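import Pool.Agent.T9h20.TG.Spec

/-!
# Robust roots: assembly
-/

set_option autoImplicit false

open MeasureTheory Set Filter Topology

namespace Pool.Agent.T9h20.TG

open Pool.Agent.T9h20.TA (mon mx sel isSel_sel)
open Pool.Agent.T9h20.TE (DD)
open Pool.Agent.T9h20.TF (Fr Fc MM ev sz ev_exp sz_exp ev_neg sz_neg)

section asm1

variable {k q t : ℕ}

theorem mx_pos' [NeZero t] {c a : Fin t → ℝ} (hc : ∃ s, c s ≠ 0) (y : ℝ) : 0 < mx c a y := by
  obtain ⟨s, hs⟩ := hc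
  refine lt_of_lt_of_le ?_ ((isSel_sel c a y).1 s)
  unfold mon
  exact abs_pos.mpr (mul_ne_zero hs (Real.exp_ne_zero _))

theorem MM_eq [NeZero t] (b d : Fin k → ℝ) (al : Fin k → Fin q → ℕ)
    (c a : Fin q → Fin t → ℝ) (i : Fin k) (y : ℝ) :
    |(b i * Real.exp (d i * y)) * ∏ j, mon (c j) (a j) (sel (c j) (a j) y) y ^ al i j| =
      MM b d al c a i y := by
  unfold MM mx
  rw [abs_mul, abs_mul, Real.abs_exp, Finset.abs_prod]
  simp only [abs_pow]

theorem Fr_mul (b d : Fin k → ℝ) (al : Fin k → Fin q → ℕ)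
    (c a : Fin q → Fin t → ℝ) (z : Fin q × Fin t → ℝ) (y : ℝ) :
    ∑ i, (b i * Real.exp (d i * y)) * ∏ j, (∑ s, mon (c j) (a j) s y * z (j, s)) ^ al i j =
      Fr b d al (fun j s => c j s * z (j, s)) a y := by
  unfold Fr mon
  refine Finset.sum_congr rfl fun i _ => ?_
  congr 1
  refine Finset.prod_congr rfl fun j _ => ?_
  congr 1
  refine Finset.sum_congr rfl fun s _ => ?_
  ring

/-- The good perturbation, for two expressions at once. -/
theorem good (hM : SMv) (hP : SPoly) [NeZero t] {m : ℕ} (hk : 1 ≤ k)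
    (b1 b2 d : Fin k → ℝ) (al : Fin k → Fin q → ℕ) (c1 c2 a : Fin q → Fin t → ℝ)
    (hal : ∀ i, ∑ j, al i j ≤ m) (hinj : Function.Injective al)
    (X1 X2 : Finset ℝ) (ρ : ℝ) (hρ : 0 < ρ) (hρ1 : ρ ≤ 1) :
    ∃ z : Fin q × Fin t → ℝ, (∀ s, 1 ≤ z s ∧ z s ≤ 1 + ρ) ∧
      (∀ x ∈ X1, ∀ i, MM b1 d al c1 a i x ≤
        ((m + 1) * (3 * (((X1.card + X2.card : ℕ) : ℝ) * m + 1) / ρ) ^ m) ^ (q * t) *
          |Fr b1 d al (fun j s => c1 j s * z (j, s)) a x|) ∧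
      (∀ x ∈ X2, ∀ i, MM b2 d al c2 a i x ≤
        ((m + 1) * (3 * (((X1.card + X2.card : ℕ) : ℝ) * m + 1) / ρ) ^ m) ^ (q * t) *
          |Fr b2 d al (fun j s => c2 j s * z (j, s)) a x|) := by
  classical
  have hne : (Finset.univ : Finset (Fin k)).Nonempty := ⟨⟨0, hk⟩, Finset.mem_univ _⟩
  -- one expression
  have h1 : ∀ (b : Fin k → ℝ) (c : Fin q → Fin t → ℝ) (x : ℝ),
      ∃ (P : MvPolynomial (Fin q × Fin t) ℝ) (v : Fin q × Fin t →₀ ℕ),
        (∀ z : Fin q × Fin t → ℝ, MvPolynomial.eval z P =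
          Fr b d al (fun j s => c j s * z (j, s)) a x) ∧ (∀ r, P.degreeOf r ≤ m) ∧
        ∀ i, MM b d al c a i x ≤ |P.coeff v| := by
    intro b c x
    obtain ⟨P, hP1, hP2, hP3⟩ := hP k q t m (fun i => b i * Real.exp (d i * x)) al
      (fun j s => mon (c j) (a j) s x) hinj hal
    obtain ⟨i0, -, hi0⟩ := Finset.exists_max_image Finset.univ
      (fun i => MM b d al c a i x) hne
    obtain ⟨v, hv⟩ := hP3 i0 (fun j => sel (c j) (a j) x)
    refine ⟨P, v, fun z => ?_, hP2, fun i => ?_⟩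
    · rw [hP1 z]
      exact Fr_mul b d al c a z x
    · rw [hv, MM_eq]
      exact hi0 i (Finset.mem_univ i)
  choose P v hP1 hP2 hP3 using h1
  set PP : {x // x ∈ X1} ⊕ {x // x ∈ X2} → MvPolynomial (Fin q × Fin t) ℝ :=
    Sum.elim (fun x => P b1 c1 x.1) (fun x => P b2 c2 x.1) with hPP
  set vv : {x // x ∈ X1} ⊕ {x // x ∈ X2} → (Fin q × Fin t →₀ ℕ) :=
    Sum.elim (fun x => v b1 c1 x.1) (fun x => v b2 c2 x.1) with hvv
  obtain ⟨z, hz1, hz2⟩ := hM _ _ PP vv m ρ hρ hρ1 (by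
    rintro (x | x) s
    · exact hP2 b1 c1 x.1 s
    · exact hP2 b2 c2 x.1 s)
  have hcard : Fintype.card ({x // x ∈ X1} ⊕ {x // x ∈ X2}) = X1.card + X2.card := by
    rw [Fintype.card_sum, Fintype.card_coe, Fintype.card_coe]
  have hcard2 : Fintype.card (Fin q × Fin t) = q * t := by
    rw [Fintype.card_prod, Fintype.card_fin, Fintype.card_fin]
  rw [hcard, hcard2] at hz2
  refine ⟨z, hz1, fun x hx i => ?_, fun x hx i => ?_⟩
  · have h := hz2 (Sum.inl ⟨x, hx⟩)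
    simp only [hPP, hvv, Sum.elim_inl] at h
    rw [hP1 b1 c1 x z] at h
    exact (hP3 b1 c1 x i).trans h
  · have h := hz2 (Sum.inr ⟨x, hx⟩)
    simp only [hPP, hvv, Sum.elim_inr] at h
    rw [hP1 b2 c2 x z] at h
    exact (hP3 b2 c2 x i).trans h

/-- The numbers: the reference points. -/
theorem numG (k q t m D : ℕ) (hk : 1 ≤ k) (hq : 1 ≤ q) (ht : 1 ≤ t) (hD : 1 ≤ D)
    (Y : ℝ) (hY : 1 ≤ Y) :
    (2 * (q : ℝ) * t + 1) *
        (20 * ((k : ℝ) ^ 2 + 2) * Real.log (1 + 2 * (Y + 1) * ((m + 1) * D)) + 1) ≤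
      183 * k ^ 2 * q * t * Real.log (1 + 2 * (Y + 1) * ((m + 1) * D)) := by
  have hk' : (1 : ℝ) ≤ k := by exact_mod_cast hk
  have hq' : (1 : ℝ) ≤ q := by exact_mod_cast hq
  have ht' : (1 : ℝ) ≤ t := by exact_mod_cast ht
  have hD' : (1 : ℝ) ≤ D := by exact_mod_cast hD
  have hm' : (0 : ℝ) ≤ m := Nat.cast_nonneg m
  set L := Real.log (1 + 2 * (Y + 1) * ((m + 1) * D)) with hL
  have hL1 : 1 ≤ L := by
    rw [hL, Real.le_log_iff_exp_le (by positivity)]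
    have h1 : Real.exp 1 < 3 := Real.exp_one_lt_three
    have h2 : (1 : ℝ) ≤ (m + 1) * D := by nlinarith
    nlinarith
  have hqt : (1 : ℝ) ≤ q * t := by nlinarith
  have h1 : 2 * (q : ℝ) * t + 1 ≤ 3 * (q * t) := by nlinarith
  have hk2 : (1 : ℝ) ≤ (k : ℝ) ^ 2 := by nlinarith
  have hkL : (1 : ℝ) ≤ (k : ℝ) ^ 2 * L := by nlinarith
  have h2 : 20 * ((k : ℝ) ^ 2 + 2) * L + 1 ≤ 61 * ((k : ℝ) ^ 2 * L) := by nlinarith
  have h5 : (2 * (q : ℝ) * t + 1) * (20 * ((k : ℝ) ^ 2 + 2) * L + 1) ≤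
      (3 * (q * t)) * (61 * ((k : ℝ) ^ 2 * L)) :=
    mul_le_mul h1 h2 (by positivity) (by positivity)
  have h6 : (3 * ((q : ℝ) * t)) * (61 * ((k : ℝ) ^ 2 * L)) = 183 * k ^ 2 * q * t * L := by ring
  linarith

/-- Robust roots. -/
theorem robust (hC : SCount) (hM : SMv) (hP : SPoly) {m D : ℕ} (hk : 1 ≤ k) (hq : 1 ≤ q)
    (ht : 1 ≤ t) (hD : 1 ≤ D) (b : Fin k → ℝ) (d : Fin k → ℕ) (al : Fin k → Fin q → ℕ)
    (e : Fin q → Fin t → ℕ) (u : Fin q → Fin t → ℝ) (hal : ∀ i, ∑ j, al i j ≤ m)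
    (hinj : Function.Injective al) (hd : ∀ i, d i ≤ D) (he : ∀ j s, e j s ≤ D)
    (hb : ∃ i, b i ≠ 0) (hu : ∀ j, ∃ s, u j s ≠ 0) (ρ Y : ℝ) (hρ : 0 < ρ) (hρ1 : ρ ≤ 1)
    (hY : 1 ≤ Y) (N : ℕ)
    (hN : ∀ u' : Fin q → Fin t → ℝ, (∀ j s, |u' j s - u j s| ≤ ρ * |u j s|) →
      ∃ Z : Finset ℝ, N ≤ Z.card ∧ ∀ z ∈ Z, Real.exp (-Y) ≤ |z| ∧ |z| ≤ Real.exp Y ∧
        ev b d al e u' z = 0) (L : ℝ) (hL : L = Real.log (1 + 2 * (Y + 1) * ((m + 1) * D))) :
    (N : ℝ) ≤ 366 * k ^ 2 * q * t * L * (1 + Real.logb 3 (k * (2 * t : ℝ) ^ m *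
      ((m + 1) * (3 * (366 * k ^ 2 * q * t * L * m + 1) / ρ) ^ m) ^ (q * t))) := by
  classical
  have : NeZero t := ⟨by omega⟩
  have hk' : (1 : ℝ) ≤ k := by exact_mod_cast hk
  have hq' : (1 : ℝ) ≤ q := by exact_mod_cast hq
  have ht' : (1 : ℝ) ≤ t := by exact_mod_cast ht
  have hD' : (1 : ℝ) ≤ D := by exact_mod_cast hD
  have hm' : (0 : ℝ) ≤ m := Nat.cast_nonneg m
  set b2 : Fin k → ℝ := fun i => b i * (-1) ^ d i with hb2
  set u2 : Fin q → Fin t → ℝ := fun j s => u j s * (-1) ^ e j s with hu2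
  set dd : Fin k → ℝ := fun i => (d i : ℝ) with hdd
  set ee : Fin q → Fin t → ℝ := fun j s => (e j s : ℝ) with hee
  have hdD : ∀ i, 0 ≤ dd i ∧ dd i ≤ D :=
    fun i => ⟨Nat.cast_nonneg _, Nat.cast_le.mpr (hd i)⟩
  have heD : ∀ j s, 0 ≤ ee j s ∧ ee j s ≤ D :=
    fun j s => ⟨Nat.cast_nonneg _, Nat.cast_le.mpr (he j s)⟩
  have hu2' : ∀ j, ∃ s, u2 j s ≠ 0 := fun j => by
    obtain ⟨s, hs⟩ := hu j
    exact ⟨s, mul_ne_zero hs (pow_ne_zero _ (by norm_num))⟩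
  have hb2' : ∃ i, b2 i ≠ 0 := by
    obtain ⟨i, hi⟩ := hb
    exact ⟨i, mul_ne_zero hi (pow_ne_zero _ (by norm_num))⟩
  obtain ⟨X1, hX1, hZ1⟩ := hC k q t m b dd al u ee D (Y + 1) (by linarith) (by linarith) hal
    hdD heD hu hb
  obtain ⟨X2, hX2, hZ2⟩ := hC k q t m b2 dd al u2 ee D (Y + 1) (by linarith) (by linarith) hal
    hdD heD hu2' hb2'
  obtain ⟨z, hz0, hg1, hg2⟩ := good hM hP (m := m) hk b b2 dd al u u2 ee hal hinj X1 X2 ρ hρ hρ1
  have hnum := numG k q t m D hk hq ht hD Y hY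
  rw [← hL] at hX1 hX2 hnum
  have hL1 : 1 ≤ L := by
    rw [hL, Real.le_log_iff_exp_le (by positivity)]
    have h1 : Real.exp 1 < 3 := Real.exp_one_lt_three
    have h2 : (1 : ℝ) ≤ (m + 1) * D := by nlinarith
    nlinarith
  have hX1' : (X1.card : ℝ) ≤ 183 * k ^ 2 * q * t * L := hX1.trans hnum
  have hX2' : (X2.card : ℝ) ≤ 183 * k ^ 2 * q * t * L := hX2.trans hnum
  -- the size
  set Θ : ℝ := ((m + 1) * (3 * (((X1.card + X2.card : ℕ) : ℝ) * m + 1) / ρ) ^ m) ^ (q * t)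
    with hΘ
  set Θ' : ℝ := ((m + 1) * (3 * (366 * k ^ 2 * q * t * L * m + 1) / ρ) ^ m) ^ (q * t) with hΘ'
  have hcard0 : (0 : ℝ) ≤ ((X1.card + X2.card : ℕ) : ℝ) := Nat.cast_nonneg _
  have hΘΘ : Θ ≤ Θ' := by
    rw [hΘ, hΘ']
    have h1 : ((X1.card + X2.card : ℕ) : ℝ) * m + 1 ≤ 366 * k ^ 2 * q * t * L * m + 1 := by
      have h2 : ((X1.card + X2.card : ℕ) : ℝ) ≤ 366 * k ^ 2 * q * t * L := by
        push_cast
        linarith
      have := mul_le_mul_of_nonneg_right h2 hm'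
      linarith
    have h3 : (0 : ℝ) ≤ ((X1.card + X2.card : ℕ) : ℝ) * m + 1 := by positivity
    gcongr
  have hbase : 1 ≤ (m + 1) * (3 * (366 * k ^ 2 * q * t * L * m + 1) / ρ) ^ m := by
    have h1 : 1 ≤ 3 * (366 * k ^ 2 * q * t * L * m + 1) / ρ := by
      rw [le_div_iff₀ hρ]
      have h2 : 0 ≤ 366 * (k : ℝ) ^ 2 * q * t * L * m := by positivity
      linarith
    have h2 : 1 ≤ (3 * (366 * (k : ℝ) ^ 2 * q * t * L * m + 1) / ρ) ^ m := one_le_pow₀ h1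
    nlinarith
  have hΘ1 : 1 ≤ Θ' := one_le_pow₀ hbase
  have h2t : (1 : ℝ) ≤ (2 * t : ℝ) ^ m := one_le_pow₀ (by linarith)
  have hK : 1 ≤ k * (2 * t : ℝ) ^ m * Θ' := by
    have h1 : 1 ≤ k * (2 * t : ℝ) ^ m := by nlinarith
    nlinarith
  set T := Real.logb 3 (k * (2 * t : ℝ) ^ m * Θ') with hT
  have hT0 : 0 ≤ T := Real.logb_nonneg (by norm_num) hK
  set n : ℕ := ⌊1 + T⌋₊ with hn
  have hn1 : (n : ℝ) ≤ 1 + T := Nat.floor_le (by linarith)
  have hn2 : 1 + T < (n : ℝ) + 1 := Nat.lt_floor_add_one _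
  have hcond : 3 * (k * (2 * t : ℝ) ^ m * Θ') < 3 ^ (n + 1) := by
    have h1 : (3 : ℝ) ^ (1 + T) < (3 : ℝ) ^ ((n : ℝ) + 1) :=
      Real.rpow_lt_rpow_of_exponent_lt (by norm_num) hn2
    rw [Real.rpow_add (by norm_num), Real.rpow_one, hT,
      Real.rpow_logb (by norm_num) (by norm_num) (by linarith)] at h1
    have h2 : (3 : ℝ) ^ ((n : ℝ) + 1) = 3 ^ (n + 1) := by
      rw [← Real.rpow_natCast]
      push_cast
      rfl
    rw [h2] at h1
    exact h1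
  -- the inequality at a reference point
  have key : ∀ (b' : Fin k → ℝ) (c' c'' : Fin q → Fin t → ℝ) (x : ℝ), (∃ i, b' i ≠ 0) →
      (∀ j, ∃ s, c' j s ≠ 0) →
      (∀ i, MM b' dd al c' ee i x ≤ Θ * |Fr b' dd al c'' ee x|) →
      ∀ i, 3 * (k * (2 * t : ℝ) ^ m) * MM b' dd al c' ee i x <
        |Fr b' dd al c'' ee x| * 3 ^ (n + 1) := by
    intro b' c' c'' x hb' hc' h i
    have hF : 0 < |Fr b' dd al c'' ee x| := by
      obtain ⟨i1, hi1⟩ := hb'
      have h1 : 0 < MM b' dd al c' ee i1 x := by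
        unfold MM
        exact mul_pos (mul_pos (abs_pos.mpr hi1) (Real.exp_pos _))
          (Finset.prod_pos fun j _ => pow_pos (mx_pos' (hc' j) x) _)
      have h2 := h1.trans_le (h i1)
      by_contra hcon
      have h3 : |Fr b' dd al c'' ee x| = 0 := le_antisymm (not_lt.mp hcon) (abs_nonneg _)
      rw [h3, mul_zero] at h2
      exact lt_irrefl _ h2
    have h4 : MM b' dd al c' ee i x ≤ Θ' * |Fr b' dd al c'' ee x| :=
      (h i).trans (mul_le_mul_of_nonneg_right hΘΘ hF.le)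
    calc 3 * (k * (2 * t : ℝ) ^ m) * MM b' dd al c' ee i x
        ≤ 3 * (k * (2 * t : ℝ) ^ m) * (Θ' * |Fr b' dd al c'' ee x|) :=
          mul_le_mul_of_nonneg_left h4 (by positivity)
      _ = (3 * (k * (2 * t : ℝ) ^ m * Θ')) * |Fr b' dd al c'' ee x| := by ring
      _ < 3 ^ (n + 1) * |Fr b' dd al c'' ee x| := mul_lt_mul_of_pos_right hcond hF
      _ = |Fr b' dd al c'' ee x| * 3 ^ (n + 1) := by ring
  -- the perturbation
  set u' : Fin q → Fin t → ℝ := fun j s => u j s * z (j, s) with hu'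
  set u2' : Fin q → Fin t → ℝ := fun j s => u2 j s * z (j, s) with hu2''
  have hzabs : ∀ p, |z p| ≤ 2 := fun p => by
    obtain ⟨h1, h2⟩ := hz0 p
    rw [abs_of_pos (by linarith)]
    linarith
  have hle : ∀ (c : Fin q → Fin t → ℝ) j s, |c j s * z (j, s)| ≤ 2 * |c j s| := by
    intro c j s
    rw [abs_mul, mul_comm]
    exact mul_le_mul_of_nonneg_right (hzabs _) (abs_nonneg _)
  obtain ⟨Z, hZN, hZ⟩ := hN u' (fun j s => by
    obtain ⟨h1, h2⟩ := hz0 (j, s)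
    have h3 : u' j s - u j s = (z (j, s) - 1) * u j s := by
      simp only [hu']
      ring
    rw [h3, abs_mul]
    refine mul_le_mul_of_nonneg_right ?_ (abs_nonneg _)
    rw [abs_of_nonneg (by linarith)]
    linarith)
  have hA := hZ1 u' (hle u) n (fun x hx => key b u u' x hb hu (hg1 x hx))
    ((Z.filter fun z => 0 < z).image Real.log) (by
      intro y hy
      obtain ⟨w, hw, rfl⟩ := Finset.mem_image.mp hy
      obtain ⟨hwZ, hw0⟩ := Finset.mem_filter.mp hw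
      obtain ⟨h1, h2, h3⟩ := hZ w hwZ
      rw [abs_of_pos hw0] at h1 h2
      have h4 := (Real.le_log_iff_exp_le hw0).mpr h1
      have h5 := (Real.log_le_iff_le_exp hw0).mpr h2
      refine ⟨⟨by linarith, by linarith⟩, ?_⟩
      rw [← ev_exp, Real.exp_log hw0]
      exact h3)
  have hB := hZ2 u2' (hle u2) n (fun x hx => key b2 u2 u2' x hb2' hu2' (hg2 x hx))
    ((Z.filter fun z => z < 0).image fun z => Real.log (-z)) (by
      intro y hy
      obtain ⟨w, hw, rfl⟩ := Finset.mem_image.mp hy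
      obtain ⟨hwZ, hw0⟩ := Finset.mem_filter.mp hw
      obtain ⟨h1, h2, h3⟩ := hZ w hwZ
      rw [abs_of_neg hw0] at h1 h2
      have hw1 : 0 < -w := by linarith
      have h4 := (Real.le_log_iff_exp_le hw1).mpr h1
      have h5 := (Real.log_le_iff_le_exp hw1).mpr h2
      refine ⟨⟨by linarith, by linarith⟩, ?_⟩
      rw [← ev_exp, Real.exp_log hw1]
      have h6 := ev_neg b d al e u' (-w)
      rw [neg_neg, h3] at h6
      rw [← h6]
      congr 1
      funext j s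
      simp only [hu2'', hu2, hu']
      ring)
  have hcA : ((Z.filter fun z => 0 < z).image Real.log).card = (Z.filter fun z => 0 < z).card := by
    refine Finset.card_image_of_injOn fun x hx y hy hxy => ?_
    have hx0 := (Finset.mem_filter.mp (Finset.mem_coe.mp hx)).2
    have hy0 := (Finset.mem_filter.mp (Finset.mem_coe.mp hy)).2
    exact Real.log_injOn_pos hx0 hy0 hxy
  have hcB : ((Z.filter fun z => z < 0).image fun z => Real.log (-z)).card =
      (Z.filter fun z => z < 0).card := by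
    refine Finset.card_image_of_injOn fun x hx y hy hxy => ?_
    have hx0 := (Finset.mem_filter.mp (Finset.mem_coe.mp hx)).2
    have hy0 := (Finset.mem_filter.mp (Finset.mem_coe.mp hy)).2
    have h1 := Real.log_injOn_pos (show (0 : ℝ) < -x by linarith)
      (show (0 : ℝ) < -y by linarith) hxy
    linarith
  rw [hcA] at hA
  rw [hcB] at hB
  have hsplit : Z.card ≤ (Z.filter fun z => 0 < z).card + (Z.filter fun z => z < 0).card := by
    rw [← Finset.card_union_of_disjoint]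
    · refine Finset.card_le_card fun w hw => ?_
      obtain ⟨h1, -, -⟩ := hZ w hw
      have hw0 : w ≠ 0 := by
        intro h0
        rw [h0, abs_zero] at h1
        exact absurd h1 (not_le.mpr (Real.exp_pos _))
      rcases lt_or_gt_of_ne hw0 with h | h
      · exact Finset.mem_union_right _ (Finset.mem_filter.mpr ⟨hw, h⟩)
      · exact Finset.mem_union_left _ (Finset.mem_filter.mpr ⟨hw, h⟩)
    · refine Finset.disjoint_left.mpr fun w hw1 hw2 => ?_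
      have h1 := (Finset.mem_filter.mp hw1).2
      have h2 := (Finset.mem_filter.mp hw2).2
      linarith
  have hfin : (N : ℝ) ≤ ((X1.card : ℝ) + X2.card) * n := by
    have h1 : N ≤ (X1.card + X2.card) * n := by
      calc N ≤ Z.card := hZN
        _ ≤ X1.card * n + X2.card * n := hsplit.trans (Nat.add_le_add hA hB)
        _ = (X1.card + X2.card) * n := by ring
    exact_mod_cast h1
  have hn0 : (0 : ℝ) ≤ n := Nat.cast_nonneg n
  calc (N : ℝ) ≤ ((X1.card : ℝ) + X2.card) * n := hfin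
    _ ≤ (366 * k ^ 2 * q * t * L) * (1 + T) :=
      mul_le_mul (by linarith) hn1 hn0 (by positivity)

end asm1

end Pool.Agent.T9h20.TG
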