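import Mathlib

/-!
# Robust roots without a window: the numbers
-/

set_option autoImplicit false

open Set Filter Topology

namespace Pool.Agent.T9h20.TG

/-- The bound for the number of reference points. -/
noncomputable def bd (k q t m D : ℕ) (S : ℝ) : ℝ :=
  (2 * q * t + 1) * (2 * ((k : ℝ) ^ 2 + 2) *
    (40 * ((k : ℝ) ^ 2 + 2) * Real.log (1 + 4 * (20 * S ^ 4) * ((m + 1) * D)) + 2)) + 1

theorem log_le_pred {x : ℝ} (hx : 0 < x) : Real.log x ≤ x - 1 := Real.log_le_sub_one_of_pos hx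

theorem num_bd (k q t m D : ℕ) (hk : 1 ≤ k) (hq : 1 ≤ q) (ht : 1 ≤ t) (hD : 1 ≤ D)
    (r S : ℝ) (hr : 0 ≤ r) (hS : S = 2 + k + q + t + m + Real.log D + r) :
    5 ≤ S ∧ 0 ≤ bd k q t m D S ∧ bd k q t m D S ≤ 4813 * S ^ 7 := by
  have hk' : (1 : ℝ) ≤ k := by exact_mod_cast hk
  have hq' : (1 : ℝ) ≤ q := by exact_mod_cast hq
  have ht' : (1 : ℝ) ≤ t := by exact_mod_cast ht
  have hD' : (1 : ℝ) ≤ D := by exact_mod_cast hD
  have hm' : (0 : ℝ) ≤ m := Nat.cast_nonneg m
  have hlD : 0 ≤ Real.log D := Real.log_nonneg hD'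
  have hS5 : 5 ≤ S := by rw [hS]; linarith
  have hL : Real.log (1 + 4 * (20 * S ^ 4) * ((m + 1) * D)) ≤ 5 * S := by
    have h1 : 1 + 4 * (20 * S ^ 4) * ((m + 1) * D) ≤ 81 * S ^ 4 * (m + 1) * D := by
      have h2 : 1 ≤ S ^ 4 * ((m + 1) * D) := by
        have h3 : (1 : ℝ) ≤ S ^ 4 := one_le_pow₀ (by linarith)
        have h4 : (1 : ℝ) ≤ (m + 1) * D := by nlinarith
        nlinarith
      nlinarith
    have h5 : Real.log (1 + 4 * (20 * S ^ 4) * ((m + 1) * D)) ≤
        Real.log (81 * S ^ 4 * (m + 1) * D) := Real.log_le_log (by positivity) h1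
    have h6 : Real.log (81 * S ^ 4 * (m + 1) * D) =
        Real.log 81 + 4 * Real.log S + Real.log (m + 1) + Real.log D := by
      rw [Real.log_mul (by positivity) (by positivity), Real.log_mul (by positivity)
        (by positivity), Real.log_mul (by norm_num) (by positivity), Real.log_pow]
      norm_num
    have h7 : Real.log 81 ≤ 5 := by
      rw [Real.log_le_iff_le_exp (by norm_num)]
      have h8 : Real.exp 5 = Real.exp 1 ^ 5 := by
        rw [← Real.exp_nat_mul]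
        norm_num
      rw [h8]
      have h9 : (2.7 : ℝ) ≤ Real.exp 1 := by
        have := Real.exp_one_gt_d9
        linarith
      have h10 : (2.7 : ℝ) ^ 5 ≤ Real.exp 1 ^ 5 := pow_le_pow_left₀ (by norm_num) h9 5
      norm_num at h10 ⊢
      linarith
    have h11 := log_le_pred (show 0 < S by linarith)
    have h12 := log_le_pred (show (0 : ℝ) < m + 1 by positivity)
    rw [h6] at h5
    linarith
  have hL0 : 0 ≤ Real.log (1 + 4 * (20 * S ^ 4) * ((m + 1) * D)) := by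
    refine Real.log_nonneg ?_
    have : 0 ≤ 4 * (20 * S ^ 4) * ((m + 1) * D) := by positivity
    linarith
  have hkS : (k : ℝ) ≤ S := by rw [hS]; linarith
  have hqS : (q : ℝ) ≤ S := by rw [hS]; linarith
  have htS : (t : ℝ) ≤ S := by rw [hS]; linarith
  have hk2 : (k : ℝ) ^ 2 + 2 ≤ 2 * S ^ 2 := by nlinarith
  have hqt : 2 * (q : ℝ) * t + 1 ≤ 3 * S ^ 2 := by
    have : (q : ℝ) * t ≤ S * S := mul_le_mul hqS htS (by linarith) (by linarith)
    nlinarith
  refine ⟨hS5, by unfold bd; positivity, ?_⟩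
  unfold bd
  set L := Real.log (1 + 4 * (20 * S ^ 4) * ((m + 1) * D)) with hLdef
  have h1 : 40 * ((k : ℝ) ^ 2 + 2) * L + 2 ≤ 401 * S ^ 3 := by
    have h2 : ((k : ℝ) ^ 2 + 2) * L ≤ (2 * S ^ 2) * (5 * S) :=
      mul_le_mul hk2 hL hL0 (by positivity)
    have h3 : (2 : ℝ) ≤ S ^ 3 := by
      have : (5 : ℝ) ^ 3 ≤ S ^ 3 := pow_le_pow_left₀ (by norm_num) hS5 3
      linarith
    nlinarith
  have h4 : 2 * ((k : ℝ) ^ 2 + 2) * (40 * ((k : ℝ) ^ 2 + 2) * L + 2) ≤
      (4 * S ^ 2) * (401 * S ^ 3) :=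
    mul_le_mul (by linarith) h1 (by positivity) (by positivity)
  have h5 : (2 * (q : ℝ) * t + 1) * (2 * ((k : ℝ) ^ 2 + 2) *
      (40 * ((k : ℝ) ^ 2 + 2) * L + 2)) ≤ (3 * S ^ 2) * ((4 * S ^ 2) * (401 * S ^ 3)) :=
    mul_le_mul hqt h4 (by positivity) (by positivity)
  have h6 : (3 * S ^ 2) * ((4 * S ^ 2) * (401 * S ^ 3)) = 4812 * S ^ 7 := by ring
  have h7 : (1 : ℝ) ≤ S ^ 7 := one_le_pow₀ (by linarith)
  linarith

theorem num_th (k q t m D : ℕ) (hk : 1 ≤ k) (hq : 1 ≤ q) (ht : 1 ≤ t) (hD : 1 ≤ D)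
    (ρ S K : ℝ) (hρ : 0 < ρ) (hρ1 : ρ ≤ 1)
    (hS : S = 2 + k + q + t + m + Real.log D + Real.log (1 / ρ)) (hK0 : 0 ≤ K)
    (hK : K ≤ 2 * bd k q t m D S) :
    2 * (k * (m + 1) * (2 * t : ℝ) ^ m) *
        ((m + 1) * (3 * (K * m + 1) / ρ) ^ m) ^ (q * t) < Real.exp (20 * S ^ 4) ∧
      3 * (k * (2 * t : ℝ) ^ m) *
        ((m + 1) * (3 * (K * m + 1) / ρ) ^ m) ^ (q * t) < Real.exp (20 * S ^ 4) := by
  have hk' : (1 : ℝ) ≤ k := by exact_mod_cast hk
  have hq' : (1 : ℝ) ≤ q := by exact_mod_cast hq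
  have ht' : (1 : ℝ) ≤ t := by exact_mod_cast ht
  have hD' : (1 : ℝ) ≤ D := by exact_mod_cast hD
  have hm' : (0 : ℝ) ≤ m := Nat.cast_nonneg m
  have hlD : 0 ≤ Real.log D := Real.log_nonneg hD'
  have hr : 0 ≤ Real.log (1 / ρ) := Real.log_nonneg (by rw [le_div_iff₀ hρ]; linarith)
  obtain ⟨hS5, hbd0, hbd⟩ := num_bd k q t m D hk hq ht hD (Real.log (1 / ρ)) S hr hS
  have hkS : (k : ℝ) ≤ S - 4 := by rw [hS]; linarith
  have hqS : (q : ℝ) ≤ S := by rw [hS]; linarith
  have htS : (t : ℝ) ≤ S - 4 := by rw [hS]; linarith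
  have hmS : (m : ℝ) ≤ S - 5 := by rw [hS]; linarith
  have hrS : Real.log (1 / ρ) ≤ S - 5 := by rw [hS]; linarith
  have hK13 : K ≤ S ^ 13 := by
    have h1 : (9626 : ℝ) ≤ S ^ 6 := by
      have : (5 : ℝ) ^ 6 ≤ S ^ 6 := pow_le_pow_left₀ (by norm_num) hS5 6
      linarith
    have h2 : 9626 * S ^ 7 ≤ S ^ 6 * S ^ 7 := mul_le_mul_of_nonneg_right h1 (by positivity)
    have h3 : S ^ 6 * S ^ 7 = S ^ 13 := by ring
    linarith
  have hKm : K * m + 1 ≤ S ^ 14 := by
    have h1 : K * m ≤ S ^ 13 * (S - 5) := mul_le_mul hK13 hmS hm' (by positivity)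
    have h2 : (1 : ℝ) ≤ S ^ 13 := one_le_pow₀ (by linarith)
    have h3 : S ^ 13 * (S - 5) = S ^ 14 - 5 * S ^ 13 := by ring
    linarith
  have hKm0 : 0 < K * m + 1 := by positivity
  -- logarithm of the base
  have hlogS := log_le_pred (show 0 < S by linarith)
  have hlog3 : Real.log 3 ≤ 2 := by
    have := log_le_pred (show (0 : ℝ) < 3 by norm_num)
    linarith
  have hA : Real.log (3 * (K * m + 1) / ρ) ≤ 15 * S := by
    have h1 : Real.log (3 * (K * m + 1) / ρ) =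
        Real.log 3 + Real.log (K * m + 1) + Real.log (1 / ρ) := by
      rw [div_eq_mul_one_div, Real.log_mul (by positivity) (by positivity),
        Real.log_mul (by norm_num) hKm0.ne']
    have h2 : Real.log (K * m + 1) ≤ 14 * Real.log S := by
      have h3 := Real.log_le_log hKm0 hKm
      rw [Real.log_pow] at h3
      norm_num at h3
      exact h3
    rw [h1]
    linarith
  have hA1 : 1 ≤ 3 * (K * m + 1) / ρ := by
    rw [le_div_iff₀ hρ]
    have : 0 ≤ K * m := by positivity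
    linarith
  have hA0 : 0 ≤ Real.log (3 * (K * m + 1) / ρ) := Real.log_nonneg hA1
  have hB : Real.log (((m + 1) * (3 * (K * m + 1) / ρ) ^ m) ^ (q * t)) ≤ 16 * S ^ 4 := by
    rw [Real.log_pow, Real.log_mul (by positivity) (by positivity), Real.log_pow]
    have h1 := log_le_pred (show (0 : ℝ) < m + 1 by positivity)
    have h2 : (m : ℝ) * Real.log (3 * (K * m + 1) / ρ) ≤ S * (15 * S) :=
      mul_le_mul (by linarith) hA hA0 (by linarith)
    have h3 : Real.log ((m : ℝ) + 1) + m * Real.log (3 * (K * m + 1) / ρ) ≤ 16 * S ^ 2 := by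
      nlinarith
    have h4 : ((q * t : ℕ) : ℝ) ≤ S ^ 2 := by
      push_cast
      have : (q : ℝ) * t ≤ S * S := mul_le_mul hqS (by linarith) (by linarith) (by linarith)
      nlinarith
    have h5 : 0 ≤ Real.log ((m : ℝ) + 1) + m * Real.log (3 * (K * m + 1) / ρ) := by
      have : 0 ≤ Real.log ((m : ℝ) + 1) := Real.log_nonneg (by linarith)
      positivity
    calc ((q * t : ℕ) : ℝ) * (Real.log ((m : ℝ) + 1) + m * Real.log (3 * (K * m + 1) / ρ))
        ≤ S ^ 2 * (16 * S ^ 2) := mul_le_mul h4 h3 h5 (by positivity)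
      _ = 16 * S ^ 4 := by ring
  have h2t : Real.log ((2 * t : ℝ) ^ m) ≤ S ^ 2 := by
    rw [Real.log_pow]
    have h1 : Real.log (2 * t) ≤ 2 * t - 1 := log_le_pred (by positivity)
    have h1' : Real.log (2 * t) ≤ S := by
      rw [Real.log_mul (by norm_num) (by positivity)]
      have h2 := log_le_pred (show (0 : ℝ) < 2 by norm_num)
      have h3 := log_le_pred (show (0 : ℝ) < t by linarith)
      linarith
    have h4 : 0 ≤ Real.log (2 * (t : ℝ)) := Real.log_nonneg (by linarith)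
    calc (m : ℝ) * Real.log (2 * t) ≤ S * S :=
          mul_le_mul (by linarith) h1' h4 (by linarith)
      _ = S ^ 2 := by ring
  have hlogk := log_le_pred (show (0 : ℝ) < k by linarith)
  have hlogm := log_le_pred (show (0 : ℝ) < m + 1 by positivity)
  have hlog2 : Real.log 2 ≤ 1 := by
    have := log_le_pred (show (0 : ℝ) < 2 by norm_num)
    linarith
  have hS4 : 25 * S ^ 2 ≤ S ^ 4 := by
    have h1 : (25 : ℝ) ≤ S ^ 2 := by nlinarith
    have h2 : S ^ 4 = S ^ 2 * S ^ 2 := by ring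
    rw [h2]
    exact mul_le_mul_of_nonneg_right h1 (by positivity)
  have hSS : 5 * S ≤ S ^ 2 := by nlinarith
  have hS20 : 0 < S ^ 2 := by positivity
  have hΘ0 : 0 < ((m + 1) * (3 * (K * m + 1) / ρ) ^ m) ^ (q * t) := by positivity
  have hT0 : 0 < (2 * t : ℝ) ^ m := by positivity
  generalize ((m + 1) * (3 * (K * m + 1) / ρ) ^ m) ^ (q * t) = Θ at hB hΘ0 ⊢
  generalize (2 * t : ℝ) ^ m = T at h2t hT0 ⊢
  generalize S ^ 4 = S4 at hB hS4 ⊢
  generalize S ^ 2 = S2 at h2t hS4 hSS hS20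
  have hk0 : (0 : ℝ) < k := by linarith
  have hm0 : (0 : ℝ) < m + 1 := by linarith
  constructor
  · have e : Real.log (2 * (k * (m + 1) * T) * Θ) =
        Real.log 2 + (Real.log k + Real.log (m + 1) + Real.log T) + Real.log Θ := by
      rw [Real.log_mul (by positivity) hΘ0.ne', Real.log_mul two_ne_zero (by positivity),
        Real.log_mul (by positivity) hT0.ne', Real.log_mul hk0.ne' hm0.ne']
    refine (Real.log_lt_iff_lt_exp (by positivity)).mp ?_
    rw [e]
    linarith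
  · have e : Real.log (3 * (k * T) * Θ) =
        Real.log 3 + (Real.log k + Real.log T) + Real.log Θ := by
      rw [Real.log_mul (by positivity) hΘ0.ne', Real.log_mul three_ne_zero (by positivity),
        Real.log_mul hk0.ne' hT0.ne']
    refine (Real.log_lt_iff_lt_exp (by positivity)).mp ?_
    rw [e]
    linarith

end Pool.Agent.T9h20.TG
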