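import Pool.Agent.T9h20.TG.Spec2
import Pool.Agent.T9h20.TG.Asm1
import Pool.Agent.T9h20.TG.Num

/-!
# Robust roots without a window: assembly
-/

set_option autoImplicit false

open MeasureTheory Set Filter Topology

namespace Pool.Agent.T9h20.TG

open Pool.Agent.T9h20.TA (mon mx sel isSel_sel)
open Pool.Agent.T9h20.TE (DD)
open Pool.Agent.T9h20.TF (Fr Fc MM ev sz ev_exp sz_exp ev_neg sz_neg)

section asm2

variable {k q t : ℕ}

/-- The polynomial. -/
noncomputable def ex (b : Fin k → ℝ) (d : Fin k → ℕ) (al : Fin k → Fin q → ℕ)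
    (e : Fin q → Fin t → ℕ) (u : Fin q → Fin t → ℝ) : Polynomial ℝ :=
  ∑ i, Polynomial.C (b i) * Polynomial.X ^ d i *
    ∏ j, (∑ s, Polynomial.C (u j s) * Polynomial.X ^ e j s) ^ al i j

theorem eval_ex (b : Fin k → ℝ) (d : Fin k → ℕ) (al : Fin k → Fin q → ℕ)
    (e : Fin q → Fin t → ℕ) (u : Fin q → Fin t → ℝ) (y : ℝ) :
    (ex b d al e u).eval y = ev b d al e u y := by
  unfold ex ev
  simp only [Polynomial.eval_finsetSum, Polynomial.eval_prod, Polynomial.eval_mul,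
    Polynomial.eval_C, Polynomial.eval_pow, Polynomial.eval_X]

/-- The good perturbation from the grid, for two expressions at once. -/
theorem goodG (hM : SMvG) (hP : SPoly) [NeZero t] {m : ℕ} (hk : 1 ≤ k)
    (b1 b2 d : Fin k → ℝ) (al : Fin k → Fin q → ℕ) (c1 c2 a : Fin q → Fin t → ℝ)
    (hal : ∀ i, ∑ j, al i j ≤ m) (hinj : Function.Injective al)
    (X1 X2 : Finset ℝ) (K : ℕ) (hK : X1.card + X2.card ≤ K) (ρ : ℝ) (hρ : 0 < ρ)
    (hρ1 : ρ ≤ 1) :
    ∃ l : Fin q × Fin t → ℕ, (∀ s, l s ≤ K * m) ∧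
      (∀ x ∈ X1, ∀ i, MM b1 d al c1 a i x ≤
        ((m + 1) * (3 * (K * m + 1) / ρ) ^ m) ^ (q * t) *
          |Fr b1 d al (fun j s => c1 j s * (1 + ρ * l (j, s) / (K * m + 1))) a x|) ∧
      (∀ x ∈ X2, ∀ i, MM b2 d al c2 a i x ≤
        ((m + 1) * (3 * (K * m + 1) / ρ) ^ m) ^ (q * t) *
          |Fr b2 d al (fun j s => c2 j s * (1 + ρ * l (j, s) / (K * m + 1))) a x|) := by
  classical
  have hne : (Finset.univ : Finset (Fin k)).Nonempty := ⟨⟨0, hk⟩, Finset.mem_univ _⟩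
  have h1 : ∀ (b : Fin k → ℝ) (c : Fin q → Fin t → ℝ) (x : ℝ),
      ∃ (P : MvPolynomial (Fin q × Fin t) ℝ) (v : Fin q × Fin t →₀ ℕ),
        (∀ z : Fin q × Fin t → ℝ, MvPolynomial.eval z P =
          Fr b d al (fun j s => c j s * z (j, s)) a x) ∧ (∀ r, P.degreeOf r ≤ m) ∧
        ∀ i, MM b d al c a i x ≤ |P.coeff v| := by
    intro b c x
    obtain ⟨P, hP1, hP2, hP3⟩ := hP k q t m (fun i => b i * Real.exp (d i * x)) al
      (fun j s => mon (c j) (a j) s x) hinj hal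
    obtain ⟨i0, -, hi0⟩ := Finset.exists_max_image Finset.univ
      (fun i => MM b d al c a i x) hne
    obtain ⟨v, hv⟩ := hP3 i0 (fun j => sel (c j) (a j) x)
    refine ⟨P, v, fun z => ?_, hP2, fun i => ?_⟩
    · rw [hP1 z]
      exact Fr_mul b d al c a z x
    · rw [hv, MM_eq]
      exact hi0 i (Finset.mem_univ i)
  choose P v hP1 hP2 hP3 using h1
  set PP : {x // x ∈ X1} ⊕ {x // x ∈ X2} → MvPolynomial (Fin q × Fin t) ℝ :=
    Sum.elim (fun x => P b1 c1 x.1) (fun x => P b2 c2 x.1) with hPP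
  set vv : {x // x ∈ X1} ⊕ {x // x ∈ X2} → (Fin q × Fin t →₀ ℕ) :=
    Sum.elim (fun x => v b1 c1 x.1) (fun x => v b2 c2 x.1) with hvv
  have hcard : Fintype.card ({x // x ∈ X1} ⊕ {x // x ∈ X2}) = X1.card + X2.card := by
    rw [Fintype.card_sum, Fintype.card_coe, Fintype.card_coe]
  have hcard2 : Fintype.card (Fin q × Fin t) = q * t := by
    rw [Fintype.card_prod, Fintype.card_fin, Fintype.card_fin]
  obtain ⟨l, hl1, hl2⟩ := hM _ _ PP vv m K ρ hρ hρ1 (hcard ▸ hK) (by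
    rintro (x | x) s
    · exact hP2 b1 c1 x.1 s
    · exact hP2 b2 c2 x.1 s)
  rw [hcard2] at hl2
  refine ⟨l, hl1, fun x hx i => ?_, fun x hx i => ?_⟩
  · have h := hl2 (Sum.inl ⟨x, hx⟩)
    simp only [hPP, hvv, Sum.elim_inl] at h
    rw [hP1 b1 c1 x] at h
    exact (hP3 b1 c1 x i).trans h
  · have h := hl2 (Sum.inr ⟨x, hx⟩)
    simp only [hPP, hvv, Sum.elim_inr] at h
    rw [hP1 b2 c2 x] at h
    exact (hP3 b2 c2 x i).trans h

/-- Robust roots. -/
theorem robustG (hC : SCountG) (hM : SMvG) (hP : SPoly) {m D : ℕ} (hk : 1 ≤ k) (hq : 1 ≤ q)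
    (ht : 1 ≤ t) (hD : 1 ≤ D) (b : Fin k → ℝ) (d : Fin k → ℕ) (al : Fin k → Fin q → ℕ)
    (e : Fin q → Fin t → ℕ) (u : Fin q → Fin t → ℝ) (hal : ∀ i, ∑ j, al i j ≤ m)
    (hinj : Function.Injective al) (hd : ∀ i, d i ≤ D) (he : ∀ j s, e j s ≤ D)
    (hb : ∃ i, b i ≠ 0) (hu : ∀ j, ∃ s, u j s ≠ 0) (ρ : ℝ) (hρ : 0 < ρ) (hρ1 : ρ ≤ 1)
    (N : ℕ)
    (hN : ∀ u' : Fin q → Fin t → ℝ, (∀ j s, |u' j s - u j s| ≤ ρ * |u j s|) →
      N ≤ (ex b d al e u').roots.toFinset.card) (S : ℝ)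
    (hS : S = 2 + k + q + t + m + Real.log D + Real.log (1 / ρ)) :
    (N : ℝ) ≤ 200000 * S ^ 11 := by
  classical
  have : NeZero t := ⟨by omega⟩
  have hr : 0 ≤ Real.log (1 / ρ) := Real.log_nonneg (by rw [le_div_iff₀ hρ]; linarith)
  obtain ⟨hS5, hbd0, hbd⟩ := num_bd k q t m D hk hq ht hD (Real.log (1 / ρ)) S hr hS
  have hk' : (1 : ℝ) ≤ k := by exact_mod_cast hk
  have ht' : (1 : ℝ) ≤ t := by exact_mod_cast ht
  have hD' : (1 : ℝ) ≤ D := by exact_mod_cast hD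
  have hm' : (0 : ℝ) ≤ m := Nat.cast_nonneg m
  have hG0 : 0 < 20 * S ^ 4 := by positivity
  set K : ℕ := ⌊2 * bd k q t m D S⌋₊ with hK
  have hKle : (K : ℝ) ≤ 2 * bd k q t m D S := Nat.floor_le (by positivity)
  obtain ⟨hth1, hth2⟩ := num_th k q t m D hk hq ht hD ρ S K hρ hρ1 hS (Nat.cast_nonneg _) hKle
  set Θ : ℝ := ((m + 1) * (3 * (K * m + 1) / ρ) ^ m) ^ (q * t) with hΘ
  set b2 : Fin k → ℝ := fun i => b i * (-1) ^ d i with hb2
  set u2 : Fin q → Fin t → ℝ := fun j s => u j s * (-1) ^ e j s with hu2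
  have hu2' : ∀ j, ∃ s, u2 j s ≠ 0 := fun j => by
    obtain ⟨s, hs⟩ := hu j
    exact ⟨s, mul_ne_zero hs (pow_ne_zero _ (by norm_num))⟩
  have hb2' : ∃ i, b2 i ≠ 0 := by
    obtain ⟨i, hi⟩ := hb
    exact ⟨i, mul_ne_zero hi (pow_ne_zero _ (by norm_num))⟩
  -- all roots of all grid polynomials
  set ul : (Fin q × Fin t → Fin (K * m + 1)) → Fin q → Fin t → ℝ :=
    fun l j s => u j s * (1 + ρ * ((l (j, s) : ℕ) : ℝ) / (K * m + 1)) with hul
  set U : Finset ℝ := Finset.univ.biUnion fun l : Fin q × Fin t → Fin (K * m + 1) =>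
    (ex b d al e (ul l)).roots.toFinset with hU
  set M : ℝ := 1 + ∑ r ∈ U, |Real.log (|r|)| with hMdef
  have hMU : ∀ r ∈ U, |Real.log (|r|)| < M := by
    intro r hr
    have h1 := Finset.single_le_sum (f := fun r => |Real.log (|r|)|)
      (fun i _ => abs_nonneg _) hr
    rw [hMdef]
    linarith
  have hM0 : 0 < M := by
    have : 0 ≤ ∑ r ∈ U, |Real.log (|r|)| := Finset.sum_nonneg fun i _ => abs_nonneg _
    rw [hMdef]
    linarith
  obtain ⟨X1, hne1, hX1, hZ1⟩ := hC k q t m b d al u e D M (20 * S ^ 4) (by linarith) hM0 hG0 hal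
    (fun i => Nat.cast_le.mpr (hd i)) (fun j s => Nat.cast_le.mpr (he j s)) hu hb
  obtain ⟨X2, hne2, hX2, hZ2⟩ := hC k q t m b2 d al u2 e D M (20 * S ^ 4) (by linarith) hM0 hG0
    hal (fun i => Nat.cast_le.mpr (hd i)) (fun j s => Nat.cast_le.mpr (he j s)) hu2' hb2'
  have hXK : X1.card + X2.card ≤ K := by
    refine Nat.le_floor ?_
    push_cast
    have h1 : (X1.card : ℝ) ≤ bd k q t m D S := hX1
    have h2 : (X2.card : ℝ) ≤ bd k q t m D S := hX2
    linarith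
  obtain ⟨l, hl, hg1, hg2⟩ := goodG hM hP (m := m) hk b b2 (fun i => (d i : ℝ)) al u u2
    (fun j s => (e j s : ℝ)) hal hinj X1 X2 K hXK ρ hρ hρ1
  set n : ℕ := ⌊20 * S ^ 4⌋₊ with hn
  have hn1 : (n : ℝ) ≤ 20 * S ^ 4 := Nat.floor_le hG0.le
  have hn2 : 20 * S ^ 4 < (n : ℝ) + 1 := Nat.lt_floor_add_one _
  have hexp : Real.exp (20 * S ^ 4) ≤ 3 ^ (n + 1) := by
    have h1 : Real.exp (20 * S ^ 4) ≤ Real.exp ((n : ℝ) + 1) := Real.exp_le_exp.mpr hn2.le
    have h2 : Real.exp ((n : ℝ) + 1) = Real.exp 1 ^ (n + 1) := by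
      rw [← Real.exp_nat_mul]
      push_cast
      ring_nf
    have h3 : Real.exp 1 ^ (n + 1) ≤ 3 ^ (n + 1) :=
      pow_le_pow_left₀ (Real.exp_pos _).le Real.exp_one_lt_three.le _
    linarith
  -- positivity at a reference point
  have hpos : ∀ (b' : Fin k → ℝ) (c' c'' : Fin q → Fin t → ℝ) (x : ℝ), (∃ i, b' i ≠ 0) →
      (∀ j, ∃ s, c' j s ≠ 0) →
      (∀ i, MM b' (fun i => (d i : ℝ)) al c' (fun j s => (e j s : ℝ)) i x ≤
        Θ * |Fr b' (fun i => (d i : ℝ)) al c'' (fun j s => (e j s : ℝ)) x|) →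
      0 < |Fr b' (fun i => (d i : ℝ)) al c'' (fun j s => (e j s : ℝ)) x| := by
    intro b' c' c'' x hb' hc' h
    obtain ⟨i1, hi1⟩ := hb'
    have h1 : 0 < MM b' (fun i => (d i : ℝ)) al c' (fun j s => (e j s : ℝ)) i1 x := by
      unfold MM
      exact mul_pos (mul_pos (abs_pos.mpr hi1) (Real.exp_pos _))
        (Finset.prod_pos fun j _ => pow_pos (mx_pos' (hc' j) x) _)
    have h2 := h1.trans_le (h i1)
    by_contra hcon
    have h3 : |Fr b' (fun i => (d i : ℝ)) al c'' (fun j s => (e j s : ℝ)) x| = 0 :=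
      le_antisymm (not_lt.mp hcon) (abs_nonneg _)
    rw [h3, mul_zero] at h2
    exact lt_irrefl _ h2
  have key : ∀ (b' : Fin k → ℝ) (c' c'' : Fin q → Fin t → ℝ) (x : ℝ), (∃ i, b' i ≠ 0) →
      (∀ j, ∃ s, c' j s ≠ 0) →
      (∀ i, MM b' (fun i => (d i : ℝ)) al c' (fun j s => (e j s : ℝ)) i x ≤
        Θ * |Fr b' (fun i => (d i : ℝ)) al c'' (fun j s => (e j s : ℝ)) x|) →
      ∀ (i : Fin k) (A B : ℝ), 0 ≤ A → A * Θ < B →
        A * MM b' (fun i => (d i : ℝ)) al c' (fun j s => (e j s : ℝ)) i x <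
          B * |Fr b' (fun i => (d i : ℝ)) al c'' (fun j s => (e j s : ℝ)) x| := by
    intro b' c' c'' x hb' hc' h i A B hA hAB
    have hF := hpos b' c' c'' x hb' hc' h
    calc A * MM b' (fun i => (d i : ℝ)) al c' (fun j s => (e j s : ℝ)) i x
        ≤ A * (Θ * |Fr b' (fun i => (d i : ℝ)) al c'' (fun j s => (e j s : ℝ)) x|) :=
          mul_le_mul_of_nonneg_left (h i) hA
      _ = (A * Θ) * |Fr b' (fun i => (d i : ℝ)) al c'' (fun j s => (e j s : ℝ)) x| := by ring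
      _ < B * |Fr b' (fun i => (d i : ℝ)) al c'' (fun j s => (e j s : ℝ)) x| :=
          mul_lt_mul_of_pos_right hAB hF
  have keyA : ∀ (b' : Fin k → ℝ) (c' c'' : Fin q → Fin t → ℝ) (x : ℝ), (∃ i, b' i ≠ 0) →
      (∀ j, ∃ s, c' j s ≠ 0) →
      (∀ i, MM b' (fun i => (d i : ℝ)) al c' (fun j s => (e j s : ℝ)) i x ≤
        Θ * |Fr b' (fun i => (d i : ℝ)) al c'' (fun j s => (e j s : ℝ)) x|) →
      ∀ i : Fin k, 3 * (k * (2 * t : ℝ) ^ m) *
        MM b' (fun i => (d i : ℝ)) al c' (fun j s => (e j s : ℝ)) i x <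
          |Fr b' (fun i => (d i : ℝ)) al c'' (fun j s => (e j s : ℝ)) x| * 3 ^ (n + 1) := by
    intro b' c' c'' x hb' hc' h i
    have h1 := key b' c' c'' x hb' hc' h i (3 * (k * (2 * t : ℝ) ^ m)) (3 ^ (n + 1))
      (by positivity) (hth2.trans_le hexp)
    linarith
  have keyB : ∀ (b' : Fin k → ℝ) (c' c'' : Fin q → Fin t → ℝ) (x : ℝ), (∃ i, b' i ≠ 0) →
      (∀ j, ∃ s, c' j s ≠ 0) →
      (∀ i, MM b' (fun i => (d i : ℝ)) al c' (fun j s => (e j s : ℝ)) i x ≤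
        Θ * |Fr b' (fun i => (d i : ℝ)) al c'' (fun j s => (e j s : ℝ)) x|) →
      ∀ i : Fin k, 2 * (k * (m + 1) * (2 * t : ℝ) ^ m) * Real.exp (-(20 * S ^ 4)) *
        MM b' (fun i => (d i : ℝ)) al c' (fun j s => (e j s : ℝ)) i x <
          |Fr b' (fun i => (d i : ℝ)) al c'' (fun j s => (e j s : ℝ)) x| := by
    intro b' c' c'' x hb' hc' h i
    have h1 := key b' c' c'' x hb' hc' h i (2 * (k * (m + 1) * (2 * t : ℝ) ^ m) *
      Real.exp (-(20 * S ^ 4))) 1 (by positivity) (by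
        have h2 : 2 * (k * (m + 1) * (2 * t : ℝ) ^ m) * Real.exp (-(20 * S ^ 4)) * Θ =
            (2 * (k * (m + 1) * (2 * t : ℝ) ^ m) * Θ) * Real.exp (-(20 * S ^ 4)) := by ring
        rw [h2]
        have h3 := mul_lt_mul_of_pos_right hth1 (Real.exp_pos (-(20 * S ^ 4)))
        rw [← Real.exp_add, add_neg_cancel, Real.exp_zero] at h3
        exact h3)
    linarith
  -- the perturbation
  set u' : Fin q → Fin t → ℝ := fun j s => u j s * (1 + ρ * l (j, s) / (K * m + 1)) with hu'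
  set u2' : Fin q → Fin t → ℝ := fun j s => u2 j s * (1 + ρ * l (j, s) / (K * m + 1))
    with hu2''
  have hfac : ∀ p : Fin q × Fin t, 0 ≤ ρ * l p / (K * m + 1) ∧ ρ * l p / (K * m + 1) ≤ ρ := by
    intro p
    have h1 : ((l p : ℕ) : ℝ) ≤ K * m := by exact_mod_cast hl p
    have h2 : (0 : ℝ) ≤ l p := Nat.cast_nonneg _
    have h3 : (0 : ℝ) < K * m + 1 := by positivity
    refine ⟨by positivity, ?_⟩
    rw [div_le_iff₀ h3]
    exact mul_le_mul_of_nonneg_left (by linarith) hρ.le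
  have hle : ∀ (c : Fin q → Fin t → ℝ) j s,
      |c j s * (1 + ρ * l (j, s) / (K * m + 1))| ≤ 2 * |c j s| := by
    intro c j s
    obtain ⟨h1, h2⟩ := hfac (j, s)
    rw [abs_mul, mul_comm]
    refine mul_le_mul_of_nonneg_right ?_ (abs_nonneg _)
    rw [abs_of_nonneg (by linarith)]
    linarith
  have hZN := hN u' (fun j s => by
    obtain ⟨h1, h2⟩ := hfac (j, s)
    have h3 : u' j s - u j s = (ρ * l (j, s) / (K * m + 1)) * u j s := by
      simp only [hu']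
      ring
    rw [h3, abs_mul]
    refine mul_le_mul_of_nonneg_right ?_ (abs_nonneg _)
    rw [abs_of_nonneg h1]
    exact h2)
  set Z : Finset ℝ := (ex b d al e u').roots.toFinset with hZdef
  have hZ : ∀ w ∈ Z, ev b d al e u' w = 0 ∧ |Real.log (|w|)| < M := by
    intro w hw
    refine ⟨?_, hMU w ?_⟩
    · have h1 := Polynomial.isRoot_of_mem_roots (Multiset.mem_toFinset.mp hw)
      rw [← eval_ex]
      exact h1
    · refine Finset.mem_biUnion.mpr ⟨fun p => ⟨l p, Nat.lt_succ_of_le (hl p)⟩,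
        Finset.mem_univ _, ?_⟩
      exact hw
  have hA := hZ1 u' (hle u) n (fun x hx => keyA b u u' x hb hu (hg1 x hx))
    (fun x hx => keyB b u u' x hb hu (hg1 x hx))
    ((Z.filter fun z => 0 < z).image Real.log) (by
      intro y hy
      obtain ⟨w, hw, rfl⟩ := Finset.mem_image.mp hy
      obtain ⟨hwZ, hw0⟩ := Finset.mem_filter.mp hw
      obtain ⟨h1, h2⟩ := hZ w hwZ
      rw [abs_of_pos hw0] at h2
      refine ⟨abs_lt.mp h2, ?_⟩
      rw [← ev_exp, Real.exp_log hw0]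
      exact h1)
  have hB := hZ2 u2' (hle u2) n (fun x hx => keyA b2 u2 u2' x hb2' hu2' (hg2 x hx))
    (fun x hx => keyB b2 u2 u2' x hb2' hu2' (hg2 x hx))
    ((Z.filter fun z => z < 0).image fun z => Real.log (-z)) (by
      intro y hy
      obtain ⟨w, hw, rfl⟩ := Finset.mem_image.mp hy
      obtain ⟨hwZ, hw0⟩ := Finset.mem_filter.mp hw
      obtain ⟨h1, h2⟩ := hZ w hwZ
      rw [abs_of_neg hw0] at h2
      have hw1 : 0 < -w := by linarith
      refine ⟨abs_lt.mp h2, ?_⟩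
      rw [← ev_exp, Real.exp_log hw1]
      have h6 := ev_neg b d al e u' (-w)
      rw [neg_neg, h1] at h6
      rw [← h6]
      congr 1
      funext j s
      simp only [hu2'', hu2, hu']
      ring)
  have hcA : ((Z.filter fun z => 0 < z).image Real.log).card = (Z.filter fun z => 0 < z).card := by
    refine Finset.card_image_of_injOn fun x hx y hy hxy => ?_
    have hx0 := (Finset.mem_filter.mp (Finset.mem_coe.mp hx)).2
    have hy0 := (Finset.mem_filter.mp (Finset.mem_coe.mp hy)).2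
    exact Real.log_injOn_pos hx0 hy0 hxy
  have hcB : ((Z.filter fun z => z < 0).image fun z => Real.log (-z)).card =
      (Z.filter fun z => z < 0).card := by
    refine Finset.card_image_of_injOn fun x hx y hy hxy => ?_
    have hx0 := (Finset.mem_filter.mp (Finset.mem_coe.mp hx)).2
    have hy0 := (Finset.mem_filter.mp (Finset.mem_coe.mp hy)).2
    have h1 := Real.log_injOn_pos (show (0 : ℝ) < -x by linarith)
      (show (0 : ℝ) < -y by linarith) hxy
    linarith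
  rw [hcA] at hA
  rw [hcB] at hB
  have hsplit : Z.card ≤ (Z.filter fun z => 0 < z).card + (Z.filter fun z => z < 0).card + 1 := by
    have hsub : Z ⊆ ((Z.filter fun z => 0 < z) ∪ (Z.filter fun z => z < 0)) ∪ {0} := by
      intro w hw
      rcases lt_trichotomy w 0 with h | h | h
      · exact Finset.mem_union_left _ (Finset.mem_union_right _ (Finset.mem_filter.mpr ⟨hw, h⟩))
      · exact Finset.mem_union_right _ (Finset.mem_singleton.mpr h)
      · exact Finset.mem_union_left _ (Finset.mem_union_left _ (Finset.mem_filter.mpr ⟨hw, h⟩))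
    refine (Finset.card_le_card hsub).trans ((Finset.card_union_le _ _).trans ?_)
    rw [Finset.card_singleton]
    exact Nat.add_le_add_right (Finset.card_union_le _ _) 1
  have hfin : (N : ℝ) ≤ ((X1.card : ℝ) + X2.card) * n + 1 := by
    have h1 : N ≤ (X1.card + X2.card) * n + 1 := by
      calc N ≤ Z.card := hZN
        _ ≤ X1.card * n + X2.card * n + 1 := hsplit.trans (Nat.add_le_add_right
            (Nat.add_le_add hA hB) 1)
        _ = (X1.card + X2.card) * n + 1 := by ring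
    exact_mod_cast h1
  have hn0 : (0 : ℝ) ≤ n := Nat.cast_nonneg n
  have hX1' : (X1.card : ℝ) ≤ 4813 * S ^ 7 := by
    have h1 : (X1.card : ℝ) ≤ bd k q t m D S := hX1
    linarith
  have hX2' : (X2.card : ℝ) ≤ 4813 * S ^ 7 := by
    have h1 : (X2.card : ℝ) ≤ bd k q t m D S := hX2
    linarith
  have h1 : ((X1.card : ℝ) + X2.card) * n ≤ (9626 * S ^ 7) * (20 * S ^ 4) :=
    mul_le_mul (by linarith) hn1 hn0 (by positivity)
  have h2 : (9626 * S ^ 7) * (20 * S ^ 4) = 192520 * S ^ 11 := by ring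
  have h3 : (1 : ℝ) ≤ S ^ 11 := one_le_pow₀ (by linarith)
  linarith

end asm2

end Pool.Agent.T9h20.TG
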