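import Pool.Agent.T9h20.TG.Asm2
import Pool.Agent.T9h52.TG.Cov
import Pool.Agent.T9h19.TG.LocG
import Pool.Agent.T9h89.TG.BdU
import Pool.Agent.T9h83.TG.CountG
import Pool.Agent.T9h89.TG.CovG
import Pool.Agent.T9h19.TG.Gap
import Pool.Agent.T9h12.TG.Prod
import Pool.Agent.T9h89.TG.Fac
import Pool.Agent.T9h41.TG.Size
import Pool.Agent.T9h70.TG.Lag
import Pool.Agent.T9h70.TG.OneG
import Pool.Agent.T9h83.TG.MvG
import Pool.Agent.T9h89.TG.Poly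

/-!
# Robust roots: all pieces
-/

set_option autoImplicit false

namespace Pool.Agent.T9h20.TG

theorem sCountG' : SCountG :=
  Pool.Agent.T9h83.TG.sCountG (Pool.Agent.T9h89.TG.sCovG Pool.Agent.T9h52.TG.sCov)
    (Pool.Agent.T9h19.TG.sLocG Pool.Agent.T9h91.TF.sGr Pool.Agent.T9h67.TF.sEnv)
    Pool.Agent.T9h89.TG.sBdU
    (Pool.Agent.T9h19.TG.sGap Pool.Agent.T9h12.TG.sProd Pool.Agent.T9h89.TG.sFac
      Pool.Agent.T9h41.TG.sSize)
    Pool.Agent.T9h22.TF.sDec Pool.Agent.T9h20.TF.sZero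

theorem sMvG' : SMvG :=
  Pool.Agent.T9h83.TG.sMvG (Pool.Agent.T9h70.TG.sOneG Pool.Agent.T9h70.TG.sLag)

theorem sPoly' : SPoly := Pool.Agent.T9h89.TG.sPoly

end Pool.Agent.T9h20.TG
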