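import Pool.Agent.T9h20.TG.Fin
import Pool.Agent.T9h20.TE.Asm4

/-!
# Robust roots: sums of products of different factors
-/

set_option autoImplicit false

namespace Pool.Agent.T9h20.TG

open Pool.Agent.T9h20.TD (al' prod_al')
open Pool.Agent.T9h20.TE (pol sps rk pol_rk)

variable {k m t : ℕ}

theorem al'_eq (i : Fin k) (p : Fin (k * m)) :
    al' k m i p = if (finProdFinEquiv.symm p).1 = i then 1 else 0 := by
  rfl

theorem sum_al' (i : Fin k) : ∑ p, al' k m i p ≤ m := by
  have h : ∑ p, al' k m i p = ∑ x : Fin k × Fin m, if x.1 = i then 1 else 0 := by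
    rw [← finProdFinEquiv.symm.sum_comp]
    exact Finset.sum_congr rfl fun p _ => al'_eq i p
  rw [h, Fintype.sum_prod_type_right]
  simp

theorem inj_al' (hm : 1 ≤ m) : Function.Injective (al' k m) := by
  intro i i' h
  have h1 := congrFun h (finProdFinEquiv (i, ⟨0, hm⟩))
  rw [al'_eq, al'_eq, Equiv.symm_apply_apply] at h1
  by_contra hne
  simp [hne] at h1

theorem robust_kmt {D : ℕ} (hk : 1 ≤ k) (hm : 1 ≤ m) (ht : 1 ≤ t) (hD : 1 ≤ D)
    (e : Fin k → Fin m → Fin t → ℕ) (u : Fin k → Fin m → Fin t → ℝ)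
    (he : ∀ i j s, e i j s ≤ D) (hu : ∀ i j, ∃ s, u i j s ≠ 0) (ρ : ℝ) (hρ : 0 < ρ)
    (hρ1 : ρ ≤ 1) (N : ℕ)
    (hN : ∀ u' : Fin k → Fin m → Fin t → ℝ, (∀ i j s, |u' i j s - u i j s| ≤ ρ * |u i j s|) →
      N ≤ (sps e u').roots.toFinset.card) (S : ℝ)
    (hS : S = 2 + k + k * m + t + m + Real.log D + Real.log (1 / ρ)) :
    (N : ℝ) ≤ 200000 * S ^ 11 := by
  have h := robustG sCountG' sMvG' sPoly' (k := k) (q := k * m) (t := t) (m := m) (D := D) hk
    (Nat.mul_pos hk hm) ht hD (fun _ => 1) (fun _ => 0) (al' k m) (rk e) (rk u) sum_al'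
    (inj_al' hm) (fun _ => Nat.zero_le _) (fun p s => he _ _ s) ⟨⟨0, hk⟩, one_ne_zero⟩
    (fun p => hu _ _) ρ hρ hρ1 N (fun u' hu' => by
      have h1 := hN (fun i j => u' (finProdFinEquiv (i, j))) (fun i j s => by
        have h2 := hu' (finProdFinEquiv (i, j)) s
        have h3 : rk u (finProdFinEquiv (i, j)) = u i j := by
          unfold rk
          rw [Equiv.symm_apply_apply]
        rw [h3] at h2
        exact h2)
      rw [← pol_rk] at h1
      have h4 : rk (fun i j => u' (finProdFinEquiv (i, j))) = u' := by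
        funext p
        unfold rk
        exact congrArg u' (finProdFinEquiv.apply_symm_apply p)
      rw [h4] at h1
      exact h1) S (by rw [hS]; push_cast; ring)
  exact h

end Pool.Agent.T9h20.TG
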