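import Pool.Agent.T9h20.TF.Fin2

/-!
# Robust roots: definitions and pieces

`F_u(y) = ∑ i, b_i exp (d_i y) ∏ j, (∑ s, u_js exp (a_js y)) ^ α_ij`, `α_i` pairwise distinct. If
all `F_{u'}` with `|u' - u| ≤ ρ |u|` have at least `N` zeros in the window, then
`N ≤ poly(k, q, t, m, log D, log Y, log (1 / ρ))`. Plan: a finite set `X` of reference points
such that the number of zeros of `F_{u'}` is at most `|X| n` as soon as `|F_{u'}|` is not tiny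
on `X` (SCount); `F_{u'}(x)`, `u'_js = z_js u_js`, is a polynomial in the `z_js` with a large
coefficient (SPoly); the `z_js ∈ [1, 1 + ρ]` are chosen one after the other (SMv), by the
interpolation formula (SLag).
-/

set_option autoImplicit false

open MeasureTheory Set Filter Topology

namespace Pool.Agent.T9h20.TG

open Pool.Agent.T9h20.TA (mon mx)
open Pool.Agent.T9h20.TE (DD)
open Pool.Agent.T9h20.TF (Fr Fc MM)

/-- (C) Covering. With `φ s = sign s * log (1 + |s|)`, `ψ y = ∑ b ∈ B, φ ((y - b) / η)` (see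
`Pool.Agent.T9h52.TF.Cell`): divide the range of `ψ` into at most
`20 B.card log (1 + 2 Y / η) + 1` cells of length `1 / 10` and choose one point of `[p, r]` in
every nonempty cell. For `y < c` in one cell `c - y ≤ (η + |y - b|) / 9`, hence
`≤ (η + |c - b|) / 8`. -/
def SCov : Prop := ∀ (B : Finset ℝ) (η Y p r : ℝ), 0 < η → 0 < Y → -Y ≤ p → p ≤ r → r ≤ Y →
  (∀ b ∈ B, |b| ≤ Y) → ∃ X : Finset ℝ, (∀ x ∈ X, p ≤ x ∧ x ≤ r) ∧
    (X.card : ℝ) ≤ 20 * B.card * Real.log (1 + 2 * Y / η) + 1 ∧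
    ∀ y ∈ Icc p r, ∃ x ∈ X, ∀ b ∈ B, |y - x| ≤ (η + |x - b|) / 8

/-- (G) The local bound for a function `f` with `‖f z‖ ≤ T ∑ i, MM i (Re z)`: the proof of
`Pool.Agent.T9h19.TF.sLoc` (with `f` for `Fc`, `T` for `t ^ m`), from `SGr` and `SEnv`. -/
def SLocG : Prop := ∀ (k q t m : ℕ) [NeZero t] (b d : Fin k → ℝ) (al : Fin k → Fin q → ℕ)
  (c a : Fin q → Fin t → ℝ) (D : ℝ), 0 < D → (∀ i, ∑ j, al i j ≤ m) →
  (∀ i, 0 ≤ d i ∧ d i ≤ D) → (∀ j s, 0 ≤ a j s ∧ a j s ≤ D) →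
  ∀ (s0 : Fin q → Fin t) (p r : ℝ), p < r → (∀ j, ∃ s, c j s ≠ 0) → (∃ i, b i ≠ 0) →
  (∀ j, p ∈ DD (c j) (a j) (s0 j) ∧ r ∈ DD (c j) (a j) (s0 j)) →
  ∃ B : Finset ℝ, B.card ≤ k ^ 2 + 2 ∧ (∀ x ∈ B, p ≤ x ∧ x ≤ r) ∧
    ∀ y ∈ Icc p r, ∀ R : ℝ, 0 < R → (∀ x' ∈ B, R ≤ (1 / ((m + 1) * D) + |y - x'|) / 2) →
      ∃ (i0 : Fin k) (E : ℝ), ∀ (f : ℂ → ℂ) (T : ℝ), 0 ≤ T →
        (∀ z, ‖f z‖ ≤ T * ∑ i, MM b d al c a i z.re) → ∀ z : ℂ, ‖z - y‖ ≤ R →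
          ‖f z * Complex.exp (-(E * (z - y)))‖ ≤ 3 * (k * T) * MM b d al c a i0 y

/-- (B) The bound in the complex plane for changed coefficients (from `SBd` for `c'`, or
directly): `|∑ s, c'_js exp (a_js z)| ≤ 2 t mx_j (Re z)`. -/
def SBdU : Prop := ∀ (k q t m : ℕ) [NeZero t] (b d : Fin k → ℝ) (al : Fin k → Fin q → ℕ)
  (c c' a : Fin q → Fin t → ℝ), (∀ i, ∑ j, al i j ≤ m) → (∀ j s, |c' j s| ≤ 2 * |c j s|) →
  ∀ z : ℂ, ‖Fc b d al c' a z‖ ≤ (2 * t : ℝ) ^ m * ∑ i, MM b d al c a i z.re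

/-- (K) Counting zeros of `F_{c'}`, from (C), (G), (B), `SDec` (blocks), `SZero` (zeros in a disc)
with `η = 1 / ((m + 1) D)`: in each of the at most `2 q t + 1` blocks the reference points are
those of (C) for the set `B` of (G); the zeros `y` with `|y - x| ≤ (η + |x - b|) / 8` (all
`b ∈ B`) are in the disc of radius `R / 4` about `x`, `R = min over B of (η + |x - b|) / 2`,
so there are at most `n` of them. -/
def SCount : Prop := ∀ (k q t m : ℕ) [NeZero t] (b d : Fin k → ℝ) (al : Fin k → Fin q → ℕ)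
  (c a : Fin q → Fin t → ℝ) (D Y : ℝ), 0 < D → 0 < Y → (∀ i, ∑ j, al i j ≤ m) →
  (∀ i, 0 ≤ d i ∧ d i ≤ D) → (∀ j s, 0 ≤ a j s ∧ a j s ≤ D) → (∀ j, ∃ s, c j s ≠ 0) →
  (∃ i, b i ≠ 0) →
  ∃ X : Finset ℝ,
    (X.card : ℝ) ≤ (2 * q * t + 1) *
        (20 * ((k : ℝ) ^ 2 + 2) * Real.log (1 + 2 * Y * ((m + 1) * D)) + 1) ∧
    ∀ c' : Fin q → Fin t → ℝ, (∀ j s, |c' j s| ≤ 2 * |c j s|) → ∀ n : ℕ,
      (∀ x ∈ X, ∀ i, 3 * (k * (2 * t : ℝ) ^ m) * MM b d al c a i x <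
        |Fr b d al c' a x| * 3 ^ (n + 1)) →
      ∀ Z : Finset ℝ, (∀ z ∈ Z, z ∈ Ioo (-Y) Y ∧ Fr b d al c' a z = 0) → Z.card ≤ X.card * n

/-- (L) Interpolation: a polynomial of degree at most `d` which is at most `τ` at `d + 1` points
of `[0, 2]` with mutual distances at least `h` has coefficients at most
`(d + 1) (3 / h) ^ d τ`. (`Lagrange.eq_interpolate_of_eval_eq`; the coefficients of
`∏ (X - s)` over `d` points `s` of `[0, 2]` are at most `3 ^ d`.) -/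
def SLag : Prop := ∀ (p : Polynomial ℝ) (d : ℕ) (S : Finset ℝ) (h τ : ℝ), 0 < h →
  p.natDegree ≤ d → S.card = d + 1 → (∀ s ∈ S, 0 ≤ s ∧ s ≤ 2) →
  (∀ s ∈ S, ∀ s' ∈ S, s ≠ s' → h ≤ |s - s'|) → (∀ s ∈ S, |p.eval s| ≤ τ) →
    ∀ v, |p.coeff v| ≤ (d + 1) * (3 / h) ^ d * τ

/-- (O) One variable, from (L): among the `K d + 1` points `1 + ρ l / (K d + 1)`,
`l < K d + 1` at least one is good for all `i` (each `i` excludes at most `d`). -/
def SOne : Prop := ∀ (ι : Type) [Fintype ι] (p : ι → Polynomial ℝ) (v : ι → ℕ) (d : ℕ) (ρ : ℝ),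
  0 < ρ → ρ ≤ 1 → (∀ i, (p i).natDegree ≤ d) →
    ∃ z : ℝ, 1 ≤ z ∧ z ≤ 1 + ρ ∧ ∀ i, |(p i).coeff (v i)| ≤
      (d + 1) * (3 * (Fintype.card ι * d + 1) / ρ) ^ d * |(p i).eval z|

/-- (M) Several variables, from (O), by induction on the number of variables
(`MvPolynomial.finSuccEquiv`, `MvPolynomial.rename`): choose the last variable first. -/
def SMv : Prop := ∀ (ι σ : Type) [Fintype ι] [Fintype σ] (P : ι → MvPolynomial σ ℝ)
  (v : ι → σ →₀ ℕ) (d : ℕ) (ρ : ℝ), 0 < ρ → ρ ≤ 1 → (∀ i s, (P i).degreeOf s ≤ d) →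
    ∃ z : σ → ℝ, (∀ s, 1 ≤ z s ∧ z s ≤ 1 + ρ) ∧ ∀ i, |(P i).coeff (v i)| ≤
      ((d + 1) * (3 * (Fintype.card ι * d + 1) / ρ) ^ d) ^ Fintype.card σ *
        |MvPolynomial.eval z (P i)|

/-- (P) The value at `y` as a polynomial in the factors `z_js` (any real numbers `B i`, `A j s`
in place of `b_i exp (d_i y)`, `c_js exp (a_js y)`): the coefficient of
`∏ j, X (j, s j) ^ al i j` is `B i ∏ j, A j (s j) ^ al i j`, because the `al i` are pairwise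
distinct (kill the other variables). -/
def SPoly : Prop := ∀ (k q t m : ℕ) (B : Fin k → ℝ) (al : Fin k → Fin q → ℕ)
  (A : Fin q → Fin t → ℝ), Function.Injective al → (∀ i, ∑ j, al i j ≤ m) →
  ∃ P : MvPolynomial (Fin q × Fin t) ℝ,
    (∀ z : Fin q × Fin t → ℝ, MvPolynomial.eval z P =
      ∑ i, B i * ∏ j, (∑ s, A j s * z (j, s)) ^ al i j) ∧
    (∀ r, P.degreeOf r ≤ m) ∧
    ∀ (i : Fin k) (s : Fin q → Fin t), ∃ v : Fin q × Fin t →₀ ℕ,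
      P.coeff v = B i * ∏ j, A j (s j) ^ al i j

end Pool.Agent.T9h20.TG
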