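import Pool.Agent.T9h20.TG.Spec

/-!
# Robust roots without a window: pieces

The exponents are natural numbers, hence slopes differ by at least `1` or are equal. At distance
at least `G` from all break points `F` is `exp (E y) κ` up to `exp (- G)`, so it has no zeros there
unless `κ` is tiny. Only the points at distance less than `G` from a break point are covered.
-/

set_option autoImplicit false

open MeasureTheory Set Filter Topology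

namespace Pool.Agent.T9h20.TG

open Pool.Agent.T9h20.TA (mon mx)
open Pool.Agent.T9h20.TE (DD)
open Pool.Agent.T9h20.TF (Fr Fc MM)

/-- (PR) Difference of products (induction, or over a list). -/
def SProd : Prop := ∀ (q m : ℕ) (al : Fin q → ℕ) (x w M : Fin q → ℝ) (T δ : ℝ), 1 ≤ T → 0 ≤ δ →
  ∑ j, al j ≤ m → (∀ j, 0 ≤ M j ∧ |x j| ≤ T * M j ∧ |w j| ≤ T * M j ∧
    |x j - w j| ≤ δ * (T * M j)) →
    |∏ j, x j ^ al j - ∏ j, w j ^ al j| ≤ m * δ * T ^ m * ∏ j, M j ^ al j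

/-- (FA) One factor at distance at least `G` from the ends of a block. For `a s ≠ a s0` the ratio
`|mon c a s y| / |mon c a s0 y|` is at most `exp (- G)`. -/
def SFac : Prop := ∀ (t : ℕ) [NeZero t] (c c' : Fin t → ℝ) (a : Fin t → ℕ) (s0 : Fin t)
  (p r G y : ℝ), 0 ≤ G → (∀ s, |c' s| ≤ 2 * |c s|) → p ∈ DD c (fun s => (a s : ℝ)) s0 →
  r ∈ DD c (fun s => (a s : ℝ)) s0 → p + G ≤ y → y + G ≤ r →
    |∑ s, mon c' (fun s => (a s : ℝ)) s y| ≤ 2 * t * mx c (fun s => (a s : ℝ)) y ∧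
    |Real.exp (a s0 * y) * ∑ s ∈ Finset.univ.filter (fun s => a s = a s0), c' s| ≤
      2 * t * mx c (fun s => (a s : ℝ)) y ∧
    |∑ s, mon c' (fun s => (a s : ℝ)) s y -
        Real.exp (a s0 * y) * ∑ s ∈ Finset.univ.filter (fun s => a s = a s0), c' s| ≤
      Real.exp (-G) * (2 * t * mx c (fun s => (a s : ℝ)) y)

/-- (SZ) The sizes in a block (see `Pool.Agent.T9h67.TF.Env`): with
`E i = d i + ∑ j, al i j * a j (s0 j)`, `MM i y' = MM i y exp (E i (y' - y))`; `B` consists of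
`p`, `r` and the crossing points in `(p, r)` of two `MM i` with different `E i`; `i0` is maximal
at `y` (`G > 0` excludes that `y` or `y'` is a crossing point). -/
def SSize : Prop := ∀ (k q t : ℕ) [NeZero t] (b : Fin k → ℝ) (d : Fin k → ℕ)
  (al : Fin k → Fin q → ℕ) (c : Fin q → Fin t → ℝ) (a : Fin q → Fin t → ℕ)
  (s0 : Fin q → Fin t) (p r : ℝ), p < r → (∀ j, ∃ s, c j s ≠ 0) → (∃ i, b i ≠ 0) →
  (∀ j, p ∈ DD (c j) (fun s => (a j s : ℝ)) (s0 j) ∧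
    r ∈ DD (c j) (fun s => (a j s : ℝ)) (s0 j)) →
  (∀ y ∈ Icc p r, ∀ y' ∈ Icc p r, ∀ i,
    MM b (fun i => (d i : ℝ)) al c (fun j s => (a j s : ℝ)) i y' =
      MM b (fun i => (d i : ℝ)) al c (fun j s => (a j s : ℝ)) i y *
        Real.exp (((d i + ∑ j, al i j * a j (s0 j) : ℕ) : ℝ) * (y' - y))) ∧
  ∃ B : Finset ℝ, B.card ≤ k ^ 2 + 2 ∧ p ∈ B ∧ r ∈ B ∧ (∀ x ∈ B, p ≤ x ∧ x ≤ r) ∧
    ∀ G y y' : ℝ, 0 < G → y ∈ Icc p r → y' ∈ Icc p r →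
      (∀ x' ∈ B, G ≤ |y - x'| ∧ G ≤ |y' - x'|) →
      (∀ x' ∈ B, ¬ (y < x' ∧ x' < y') ∧ ¬ (y' < x' ∧ x' < y)) →
      ∃ i0 : Fin k, ∀ i, ∀ x ∈ ({y, y'} : Set ℝ),
        MM b (fun i => (d i : ℝ)) al c (fun j s => (a j s : ℝ)) i x ≤
          MM b (fun i => (d i : ℝ)) al c (fun j s => (a j s : ℝ)) i0 x ∧
        (d i + ∑ j, al i j * a j (s0 j) ≠ d i0 + ∑ j, al i0 j * a j (s0 j) →
          MM b (fun i => (d i : ℝ)) al c (fun j s => (a j s : ℝ)) i x ≤ Real.exp (-G) *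
            MM b (fun i => (d i : ℝ)) al c (fun j s => (a j s : ℝ)) i0 x)

/-- (GA) No zeros in the gaps, from (PR), (FA), (SZ): with `S = {i | E i = E i0}` and
`κ = ∑ i ∈ S, b i ∏ j, (∑ s with a j s = a j (s0 j), c' j s) ^ al i j` one has
`|F x - exp (E i0 x) κ| ≤ k (m + 1) (2 t) ^ m exp (- G) MM i0 x` for `x = y, y'`; if `F y' = 0`,
then `|exp (E i0 y) κ| ≤ k (m + 1) (2 t) ^ m exp (- G) MM i0 y`. -/
def SGap : Prop := ∀ (k q t m : ℕ) [NeZero t] (b : Fin k → ℝ) (d : Fin k → ℕ)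
  (al : Fin k → Fin q → ℕ) (c : Fin q → Fin t → ℝ) (a : Fin q → Fin t → ℕ),
  (∀ i, ∑ j, al i j ≤ m) → ∀ (s0 : Fin q → Fin t) (p r : ℝ), p < r →
  (∀ j, ∃ s, c j s ≠ 0) → (∃ i, b i ≠ 0) →
  (∀ j, p ∈ DD (c j) (fun s => (a j s : ℝ)) (s0 j) ∧
    r ∈ DD (c j) (fun s => (a j s : ℝ)) (s0 j)) →
  ∃ B : Finset ℝ, B.card ≤ k ^ 2 + 2 ∧ p ∈ B ∧ r ∈ B ∧ (∀ x ∈ B, p ≤ x ∧ x ≤ r) ∧
    ∀ c' : Fin q → Fin t → ℝ, (∀ j s, |c' j s| ≤ 2 * |c j s|) →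
    ∀ G y y' : ℝ, 0 < G → y ∈ Icc p r → y' ∈ Icc p r →
      (∀ x' ∈ B, G ≤ |y - x'| ∧ G ≤ |y' - x'|) →
      (∀ x' ∈ B, ¬ (y < x' ∧ x' < y') ∧ ¬ (y' < x' ∧ x' < y)) →
      Fr b (fun i => (d i : ℝ)) al c' (fun j s => (a j s : ℝ)) y' = 0 →
      ∃ i : Fin k, |Fr b (fun i => (d i : ℝ)) al c' (fun j s => (a j s : ℝ)) y| ≤
        2 * (k * (m + 1) * (2 * t : ℝ) ^ m) * Real.exp (-G) *
          MM b (fun i => (d i : ℝ)) al c (fun j s => (a j s : ℝ)) i y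

/-- (CG) Covering near `B`, from `SCov`: for `b0 ∈ B` apply `SCov` in
`[max p (b0 - G), min r (b0 + G)]`, translated by `b0`, to the points of `B` in
`[b0 - 2 G, b0 + 2 G]`, with `Y = 2 G`; for the other `b ∈ B`: `|x - b| ≥ G ≥ |x - b0|`. -/
def SCovG : Prop := ∀ (B : Finset ℝ) (η G p r : ℝ), 0 < η → 0 < G → p ≤ r →
  (∀ b ∈ B, p ≤ b ∧ b ≤ r) → ∃ X : Finset ℝ, (∀ x ∈ X, p ≤ x ∧ x ≤ r) ∧
    (X.card : ℝ) ≤ B.card * (20 * B.card * Real.log (1 + 4 * G / η) + 1) ∧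
    ∀ y ∈ Icc p r, (∃ b ∈ B, |y - b| < G) → ∃ x ∈ X, ∀ b ∈ B, |y - x| ≤ (η + |x - b|) / 8

/-- (KG) Counting the zeros in `(-M, M)` for any `M`, with a number of reference points which
does not depend on `M`: as (K), with `B` the union of the sets of `SLocG` and `SGap` in every
block; reference points: those of (CG) (`η = 1 / ((m + 1) D)`), one for every component of the
set of points of the block at distance at least `G` from `B` (at most `B.card`: the component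
is given by the largest element of `B` below it), and `0`. -/
def SCountG : Prop := ∀ (k q t m : ℕ) [NeZero t] (b : Fin k → ℝ) (d : Fin k → ℕ)
  (al : Fin k → Fin q → ℕ) (c : Fin q → Fin t → ℝ) (a : Fin q → Fin t → ℕ) (D M G : ℝ),
  0 < D → 0 < M → 0 < G → (∀ i, ∑ j, al i j ≤ m) →
  (∀ i, (d i : ℝ) ≤ D) → (∀ j s, (a j s : ℝ) ≤ D) → (∀ j, ∃ s, c j s ≠ 0) → (∃ i, b i ≠ 0) →
  ∃ X : Finset ℝ, X.Nonempty ∧
    (X.card : ℝ) ≤ (2 * q * t + 1) * (2 * ((k : ℝ) ^ 2 + 2) *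
        (40 * ((k : ℝ) ^ 2 + 2) * Real.log (1 + 4 * G * ((m + 1) * D)) + 2)) + 1 ∧
    ∀ c' : Fin q → Fin t → ℝ, (∀ j s, |c' j s| ≤ 2 * |c j s|) → ∀ n : ℕ,
      (∀ x ∈ X, ∀ i, 3 * (k * (2 * t : ℝ) ^ m) *
        MM b (fun i => (d i : ℝ)) al c (fun j s => (a j s : ℝ)) i x <
        |Fr b (fun i => (d i : ℝ)) al c' (fun j s => (a j s : ℝ)) x| * 3 ^ (n + 1)) →
      (∀ x ∈ X, ∀ i, 2 * (k * (m + 1) * (2 * t : ℝ) ^ m) * Real.exp (-G) *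
        MM b (fun i => (d i : ℝ)) al c (fun j s => (a j s : ℝ)) i x <
        |Fr b (fun i => (d i : ℝ)) al c' (fun j s => (a j s : ℝ)) x|) →
      ∀ Z : Finset ℝ, (∀ z ∈ Z, z ∈ Ioo (-M) M ∧
        Fr b (fun i => (d i : ℝ)) al c' (fun j s => (a j s : ℝ)) z = 0) → Z.card ≤ X.card * n

/-- (OG) As `SOne`, with `K ≥ card ι` and the point named. -/
def SOneG : Prop := ∀ (ι : Type) [Fintype ι] (p : ι → Polynomial ℝ) (v : ι → ℕ) (d K : ℕ) (ρ : ℝ),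
  0 < ρ → ρ ≤ 1 → Fintype.card ι ≤ K → (∀ i, (p i).natDegree ≤ d) →
    ∃ l : ℕ, l ≤ K * d ∧ ∀ i, |(p i).coeff (v i)| ≤
      (d + 1) * (3 * (K * d + 1) / ρ) ^ d * |(p i).eval (1 + ρ * l / (K * d + 1))|

/-- (MG) As `SMv`, with `K ≥ card ι` and the point named. -/
def SMvG : Prop := ∀ (ι σ : Type) [Fintype ι] [Fintype σ] (P : ι → MvPolynomial σ ℝ)
  (v : ι → σ →₀ ℕ) (d K : ℕ) (ρ : ℝ), 0 < ρ → ρ ≤ 1 → Fintype.card ι ≤ K →
  (∀ i s, (P i).degreeOf s ≤ d) →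
    ∃ l : σ → ℕ, (∀ s, l s ≤ K * d) ∧ ∀ i, |(P i).coeff (v i)| ≤
      ((d + 1) * (3 * (K * d + 1) / ρ) ^ d) ^ Fintype.card σ *
        |MvPolynomial.eval (fun s => 1 + ρ * l s / (K * d + 1)) (P i)|

end Pool.Agent.T9h20.TG
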